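import Mathlib
import Pool.Agent.V1112.QPerm

/-!
# `PH_n^+` is never the quantum automorphism group of a finite graph
-/

set_option autoImplicit false

namespace Pool.Agent.Results.MP_8a5df5_al.NoGraph

open Pool.Agent.V1112.QPerm

/-- For all `n ≥ 2` and all finite simple graphs `X` no quotient algebra of `O(G^+(X))` is isomorphic
to `O(PH_n^+)`; in particular the algebras `O(G^+(X))` and `O(PH_n^+)` are not isomorphic. -/
theorem result : ∀ n : ℕ, 2 ≤ n → ∀ (N : ℕ) (X : SimpleGraph (Fin N)),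
    (∀ (A : Type) [Ring A] [Algebra ℂ A] (q : OG X →ₐ[ℂ] A), Function.Surjective q →
      IsEmpty (A ≃ₐ[ℂ] OPH n)) ∧
    IsEmpty (OG X ≃ₐ[ℂ] OPH n) := by
  intro n hn N X
  have key : ∀ f : OG X →ₐ[ℂ] OPH n, ¬ Function.Surjective f := by
    intro f hf
    let g : FreeAlgebra ℂ (Fin N × Fin N) →ₐ[ℂ] OPH n :=
      f.comp (RingQuot.mkAlgHom ℂ (GRel X))
    have hg : Function.Surjective g := hf.comp (RingQuot.mkAlgHom_surjective ℂ (GRel X))
    refine adjoin_idem_ne_top hn (g '' Set.range (FreeAlgebra.ι ℂ)) ?_ ?_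
    · rintro _ ⟨_, ⟨⟨i, j⟩, rfl⟩, rfl⟩
      rw [← map_mul]
      simp only [g, AlgHom.comp_apply]
      exact congrArg f (RingQuot.mkAlgHom_rel ℂ (GRel.magic _ _ (SRel.idem i j)))
    · rw [← AlgHom.map_adjoin, FreeAlgebra.adjoin_range_ι, Algebra.map_top]
      exact (AlgHom.range_eq_top g).2 hg
  refine ⟨fun A _ _ q hq => ⟨fun e => key ((e : A →ₐ[ℂ] OPH n).comp q) ?_⟩, ⟨fun e => key e e.surjective⟩⟩
  rw [AlgHom.coe_comp]
  exact e.surjective.comp hq

end Pool.Agent.Results.MP_8a5df5_al.NoGraph
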