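import Mathlib
import Pool.Agent.V1112.QPerm

/-!
# `PH_n^+` is never a quantum permutation group

The diagonal quotient of `O(PH_n^+)` is the group algebra of the subgroup of words of even length in
`Z_2^{*n}`, which is free of rank `n - 1`; its group algebra has no idempotents besides `0` and `1`,
so `O(PH_n^+)` cannot be generated by the entries of a magic unitary.
-/

set_option autoImplicit false

namespace Pool.Agent.Results.MP_8a5df5_al.NotQuantumPermutation

open Pool.Agent.V1112.QPerm

/-- For all `n ≥ 2` and all `N` there is no surjective homomorphism of unital algebras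
`O(S_N^+) → O(PH_n^+)`. -/
theorem result : ∀ n : ℕ, 2 ≤ n → ∀ N : ℕ, ¬ ∃ f : OS N →ₐ[ℂ] OPH n, Function.Surjective f := by
  rintro n hn N ⟨f, hf⟩
  let g : FreeAlgebra ℂ (Fin N × Fin N) →ₐ[ℂ] OPH n := f.comp (RingQuot.mkAlgHom ℂ (SRel N))
  have hg : Function.Surjective g := hf.comp (RingQuot.mkAlgHom_surjective ℂ (SRel N))
  refine adjoin_idem_ne_top hn (g '' Set.range (FreeAlgebra.ι ℂ)) ?_ ?_
  · rintro _ ⟨_, ⟨⟨i, j⟩, rfl⟩, rfl⟩
    rw [← map_mul]
    simp only [g, AlgHom.comp_apply]
    exact congrArg f (RingQuot.mkAlgHom_rel ℂ (SRel.idem i j))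
  · rw [← AlgHom.map_adjoin, FreeAlgebra.adjoin_range_ι, Algebra.map_top]
    exact (AlgHom.range_eq_top g).2 hg

end Pool.Agent.Results.MP_8a5df5_al.NotQuantumPermutation
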